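import Pool.Agent.Lib.MP_c86c76_al.Th.Top
import Pool.Agent.Lib.MP_c86c76_al.Q.F5.Fh
import Pool.Agent.Lib.MP_c86c76_al.B.Final
import Pool.Agent.Lib.MP_c86c76_al.B.Two
import Pool.Agent.Lib.MP_c86c76_al.Ba.Univ
import Pool.Agent.Lib.MP_c86c76_al.Top.OriP

/-!
The mapping class group of the closed orientable surface of genus `g ≥ 2` has property (T) exactly
when `g ≥ 5`.
-/

set_option autoImplicit false

namespace Pool.Agent.Results.MP_c86c76_al.AllGenera

open Pool.Agent.MCG

universe u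

/-- Kazhdan's property (T) for a group with the finite generating set `S`: for some `ε > 0` every
unitary representation with a unit vector moved by less than `ε` by the members of `S` has a
nonzero invariant vector. -/
def PropT {G : Type} [Group G] (S : Finset G) : Prop :=
  ∃ ε : ℝ, 0 < ε ∧ ∀ (H : Type u) [NormedAddCommGroup H] [InnerProductSpace ℂ H] [CompleteSpace H]
    (π : G →* (H ≃ₗᵢ[ℂ] H)) (v : H), ‖v‖ = 1 → (∀ s ∈ S, ‖π s v - v‖ < ε) →
    ∃ w : H, w ≠ 0 ∧ ∀ x, π x w = w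

/-- `G` is finitely generated, and for each finite generating set it has property (T) exactly when
`P` holds. -/
def TIff (G : Type) [Group G] (P : Prop) : Prop :=
  Group.FG G ∧ ∀ S : Finset G, Subgroup.closure (S : Set G) = ⊤ → (PropT.{u} S ↔ P)

theorem result (g : ℕ) (hg : 2 ≤ g) (Γ : Subgroup (ModPM (Surf g)))
    (hΓ : Γ.relIndex (ModOr g) ≠ 0) : TIff.{u} Γ (5 ≤ g) := by
  have hP := ori_rel (by omega) hΓ
  have fg := top_fg (by omega) Γ hP
  refine ⟨fg, fun S hS => ⟨?_, fun h => (top_T MT.fhFive h Γ hP S hS).imp fun _ k =>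
    ⟨k.1, (MT.kazU_iff fg).2 k.2⟩⟩⟩
  rintro ⟨ε, h0, hK⟩
  by_contra h
  have hN : MB.NoT g := by
    by_cases e : g = 2
    · exact e ▸ MB.noT_two
    · exact MB.noT g (by omega)
  obtain ⟨H, _, _, _, π, v, h1, h2, h3⟩ := hN Γ hP S ε h0
  obtain ⟨w, w0, w1⟩ := (MT.kazU_iff fg).1 hK H π v h1 h2
  exact w0 (h3 w w1)

end Pool.Agent.Results.MP_c86c76_al.AllGenera
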