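import Pool.Agent.Lib.MP_c86c76_al.Tau.Glue

/-!
In genus three and four property (T) fails already for unitary representations with finite image:
the mapping class group does not have property (tau).
-/

set_option autoImplicit false

namespace Pool.Agent.Results.MP_c86c76_al.FiniteImage

open Pool.Agent.MCG

/-- Almost invariant unit vectors in finite-dimensional unitary representations with finite image
and without non-zero invariant vectors. -/
def NotTau (G : Type) [Group G] : Prop := ∀ (S : Finset G) (ε : ℝ), 0 < ε →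
  ∃ (H : Type) (_ : NormedAddCommGroup H) (_ : InnerProductSpace ℂ H) (_ : FiniteDimensional ℂ H)
    (π : G →* (H ≃ₗᵢ[ℂ] H)) (v : H), (Set.range π).Finite ∧ ‖v‖ = 1 ∧
    (∀ s ∈ S, ‖π s v - v‖ < ε) ∧ ∀ w : H, (∀ x, π x w = w) → w = 0

theorem result (g : ℕ) (hg : g = 3 ∨ g = 4) (Γ : Subgroup (ModPM (Surf g)))
    (hΓ : Γ.relIndex (ModP (Surf g)) ≠ 0) : NotTau Γ := by
  rcases hg with rfl | rfl
  · exact Pool.Agent.MB.noTau3 Γ hΓ
  · exact Pool.Agent.MB.noTau4 Γ hΓ

end Pool.Agent.Results.MP_c86c76_al.FiniteImage
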