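import Pool.Agent.Lib.MP_c86c76_al.Main

/-!
Dehn twists move points of Hilbert space by less than the square root of the exponent.
-/

set_option autoImplicit false

namespace Pool.Agent.Results.MP_c86c76_al.TwistGrowth

open Pool.Agent.Lib.MP_c86c76_al Filter Topology

theorem result (g : ℕ) (hg : 3 ≤ g) (T : Mod g) (hT : IsTwist T) (H : Type)
    [NormedAddCommGroup H] [InnerProductSpace ℝ H] [CompleteSpace H] (ρ : Mod g →* (H ≃ᵢ H))
    (v : H) : Tendsto (fun n : ℕ => dist (ρ (T ^ n) v) v ^ 2 / n) atTop (𝓝 0) :=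
  twist_growth hg hT ρ v

end Pool.Agent.Results.MP_c86c76_al.TwistGrowth
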